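import Pool.Agent.Work.MP_e0aece_nt.Sandwich

/-!
# The minimal size of a reliable set is, up to `1`, the base-`(v+2)` logarithm of a chromatic number

`R x` is attained and `M x ≤ R x ≤ M x + 1`, where `M x` is the maximum over `v ≥ 1` of
`⌈log_{v+2} χ_v(x)⌉` and `χ_v(x)` is the chromatic number of the hypergraph of Carmichael numbers
`n ≤ x` all of whose prime factors `p` satisfy `v_2 (p - 1) = v`.
-/

namespace Pool.Agent.Results.MP_e0aece_nt.CarmichaelChromatic

open Pool.Agent.Work.MP_e0aece_nt

theorem result (x : ℝ) :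
    (∃ W : Finset ℤ, W.card = R x ∧ IsReliable W x) ∧ M x ≤ R x ∧ R x ≤ M x + 1 :=
  ⟨R_attained x, sandwich x⟩

end Pool.Agent.Results.MP_e0aece_nt.CarmichaelChromatic
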