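import Pool.Agent.Work.MP_e0aece_nt.Loc.Asymp
import Pool.Agent.Work.MP_e0aece_nt.Lg.Main

/-!
# The size of reliable sets is decided by Carmichael numbers with few prime factors in one class
-/

namespace Pool.Agent.Results.MP_e0aece_nt.Localization

open Pool.Agent.Work.MP_e0aece_nt Filter Asymptotics

/-- `RS (CF d c) x` is the least size of a set of integers that contains a witness for every
Carmichael number `n ≤ x` with at most `d` prime factors, all of one colour under `c`. -/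
theorem result :
    (∀ (x : ℝ) (d m : ℕ) (c : ℕ → Fin (3 ^ m)), 1 ≤ x → 1 ≤ d →
      RS (CF d c) x ≤ R x ∧
        (R x : ℝ) ≤ RS (CF d c) x + m + Real.log x / (d * Real.log 3) + 2) ∧
    (∃ C : ℝ, 0 < C ∧ ∀ ε : ℝ, 0 < ε → ∀ᶠ x : ℝ in atTop,
      ∀ (d K : ℕ) (c : ℕ → Fin K), (Real.log (Real.log x)) ^ C ≤ d →
        (K : ℝ) ≤ Real.exp (Real.log x / (Real.log (Real.log x)) ^ C) →
        (1 - ε) * (R x : ℝ) ≤ RS (CF d c) x ∧ RS (CF d c) x ≤ R x) ∧
    (((fun x : ℝ => (R x : ℝ)) =o[atTop] Real.log) ↔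
      ∀ d : ℕ, (fun x : ℝ => (RS {n | IsCarmichael n ∧ n.primeFactors.card ≤ d} x : ℝ))
        =o[atTop] Real.log) :=
  ⟨localization, loc_asymp Lg.claimFinalLg_all, littleO_iff⟩

end Pool.Agent.Results.MP_e0aece_nt.Localization
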