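import Pool.Agent.Work.MP_e0aece_nt.Final2

/-!
# `R(x) ≤ (1/(10 log 3) + o(1)) log x`
-/

namespace Pool.Agent.Results.MP_e0aece_nt.UpperConstant

open Pool.Agent.Work.MP_e0aece_nt Filter

theorem result (ε : ℝ) (hε : 0 < ε) :
    ∀ᶠ x : ℝ in atTop, ∃ W : Finset ℤ, IsReliable W x ∧ W.card = R x ∧
      (W.card : ℝ) ≤ (1 / (10 * Real.log 3) + ε) * Real.log x := by
  filter_upwards [upper_bound ε hε] with x hx
  obtain ⟨W, hW, hrel⟩ := R_attained x
  exact ⟨W, hrel, hW, by rw [hW]; exact hx⟩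

end Pool.Agent.Results.MP_e0aece_nt.UpperConstant
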